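import Pool.Agent.H72.PmJ

set_option autoImplicit false
set_option linter.unusedVariables false
set_option linter.unusedSimpArgs false
set_option linter.unnecessarySeqFocus false

namespace Pool.Agent.Results.MP_a6a2ff_al.Gsca19

open Pool.Agent.H72.PmDef Pool.Agent.H72.Pm

variable {k : Type} [Field k] {n : ℕ}

/-- `μ i j * μ j i = 1`, `μ i i = 1`, and all the `M l` are `μ`-symmetric. -/
structure Data (μ : Matrix (Fin n) (Fin n) k) (M : Fin n → Matrix (Fin n) (Fin n) k) : Prop where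
  inv : ∀ i j, μ i j * μ j i = 1
  diag : ∀ i, μ i i = 1
  symm : ∀ l i j, M l i j = μ i j * M l j i

/-- `x i * x j + μ i j • x j * x i`. -/
def lhs {B : Type} [Ring B] [Algebra k B] (μ : Matrix (Fin n) (Fin n) k) (x : Fin n → B)
    (i j : Fin n) : B := x i * x j + μ i j • (x j * x i)

/-- `∑ l, M l i j • y l`. -/
def rhs {B : Type} [Ring B] [Algebra k B] (M : Fin n → Matrix (Fin n) (Fin n) k) (y : Fin n → B)
    (i j : Fin n) : B := ∑ l, M l i j • y l

/-- The defining relations on the letters `X i = inl i` and `Y l = inr l`. -/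
def GRel (μ : Matrix (Fin n) (Fin n) k) (M : Fin n → Matrix (Fin n) (Fin n) k)
    (a b : FreeAlgebra k (Fin n ⊕ Fin n)) : Prop :=
  ∃ i j, a = lhs μ (fun r => FreeAlgebra.ι k (Sum.inl r)) i j ∧
    b = rhs M (fun l => FreeAlgebra.ι k (Sum.inr l)) i j

/-- The algebra `A(μ; M₁, …, Mₙ)`. -/
abbrev GA (μ : Matrix (Fin n) (Fin n) k) (M : Fin n → Matrix (Fin n) (Fin n) k) : Type :=
  RingQuot (GRel μ M)

/-- The generators: `x i = gen (inl i)` and `y l = gen (inr l)`. -/
def gen (μ : Matrix (Fin n) (Fin n) k) (M : Fin n → Matrix (Fin n) (Fin n) k) (s : Fin n ⊕ Fin n) :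
    GA μ M := RingQuot.mkAlgHom k (GRel μ M) (FreeAlgebra.ι k s)

/-- The span of the `x i`. -/
def spanX (μ : Matrix (Fin n) (Fin n) k) (M : Fin n → Matrix (Fin n) (Fin n) k) :
    Submodule k (GA μ M) := Submodule.span k (Set.range fun i => gen μ M (Sum.inl i))

/-- The span of the `y l`. -/
def spanY (μ : Matrix (Fin n) (Fin n) k) (M : Fin n → Matrix (Fin n) (Fin n) k) :
    Submodule k (GA μ M) := Submodule.span k (Set.range fun l => gen μ M (Sum.inr l))

/-- `z` is normal modulo the two-sided ideal `I`. -/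
def NormalMod {B : Type} [Ring B] (I : TwoSidedIdeal B) (z : B) : Prop :=
  ∀ a, (∃ b, z * a - b * z ∈ I) ∧ ∃ b, a * z - z * b ∈ I

/-- A normalizing sequence: each term is normal modulo the earlier ones, and the ideal generated by
all of them is proper. -/
def Normalizing {B : Type} [Ring B] (z : Fin n → B) : Prop :=
  (∀ j, NormalMod (TwoSidedIdeal.span (z '' {l | l < j})) (z j)) ∧
    TwoSidedIdeal.span (Set.range z) ≠ ⊤

/-- `z` spans `W`. -/
def Spans {B : Type} [Ring B] [Algebra k B] (z : Fin n → B) (W : Submodule k B) : Prop :=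
  Submodule.span k (Set.range z) = W

/-- `W ≤ V²`. -/
def InSq {B : Type} [Ring B] [Algebra k B] (W V : Submodule k B) : Prop := W ≤ V ^ 2

/-- The quadratic form `∑ r i j • y i * y j`. -/
def quad {B : Type} [Ring B] [Algebra k B] (y : Fin n → B) (r : Matrix (Fin n) (Fin n) k) : B :=
  ∑ i, ∑ j, r i j • (y i * y j)

/-- The relations `∑ r i j • X i * X j = 0` for `r ∈ R`. -/
def QRel (R : Set (Matrix (Fin n) (Fin n) k)) (a b : FreeAlgebra k (Fin n)) : Prop :=
  b = 0 ∧ ∃ r ∈ R, a = quad (FreeAlgebra.ι k) r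

/-- The quadratic algebra on `n` generators with the relations `R`. -/
abbrev QA (R : Set (Matrix (Fin n) (Fin n) k)) : Type := RingQuot (QRel R)

/-- The generators of `QA R`. -/
def qgen (R : Set (Matrix (Fin n) (Fin n) k)) (i : Fin n) : QA R :=
  RingQuot.mkAlgHom k (QRel R) (FreeAlgebra.ι k i)

/-- `A(μ; M)` is quadratic: it is presented by the `x i` and quadratic relations among them. -/
def Quadratic (μ : Matrix (Fin n) (Fin n) k) (M : Fin n → Matrix (Fin n) (Fin n) k) : Prop :=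
  ∃ (R : Set (Matrix (Fin n) (Fin n) k)) (e : QA R ≃ₐ[k] GA μ M),
    ∀ i, e (qgen R i) = gen μ M (Sum.inl i)

def mu (i : k) : Matrix (Fin 4) (Fin 4) k := !![1, -1, 1, i; -1, 1, 1, -i; 1, 1, 1, 1; -i, i, 1, 1]

def MM (c : k) : Fin 4 → Matrix (Fin 4) (Fin 4) k :=
  ![!![2, 0, 0, 0; 0, 0, 2 * c, 0; 0, 2 * c, 0, 0; 0, 0, 0, 0],
    !![0, 0, 2, 0; 0, 2, 2 * (1 - c), 0; 2, 2 * (1 - c), 2, 0; 0, 0, 0, 0],
    !![0, -1, 0, 0; 1, 0, 0, 0; 0, 0, 0, 0; 0, 0, 0, 2],
    !![0, 0, 0, 0; 0, 0, 0, 0; 0, 0, 0, 1; 0, 0, 1, 0]]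

section gen
variable {B : Type} [Ring B] [Algebra k B] {i c : k} {x y : Fin 4 → B}

def yy (x : Fin 4 → B) : Fin 4 → B := ![x 0 * x 0, x 1 * x 1, x 3 * x 3, x 2 * x 3 + x 3 * x 2]

theorem of_g (h2 : (2 : k) ≠ 0) (h : ∀ r s, lhs (mu i) x r s = rhs (MM c) y r s) :
    Rels i c x ∧ y = yy x := by
  have a00 := h 0 0
  have a11 := h 1 1
  have a22 := h 2 2
  have a33 := h 3 3
  have a01 := h 0 1
  have a02 := h 0 2
  have a03 := h 0 3
  have a12 := h 1 2
  have a13 := h 1 3
  have a23 := h 2 3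
  simp only [lhs, rhs, mu, MM, Fin.sum_univ_four, Matrix.of_apply, Matrix.cons_val', Matrix.cons_val_zero,
    Matrix.cons_val_one, Matrix.cons_val, Matrix.cons_val_fin_one] at a00 a11 a22 a33 a01 a02 a03 a12 a13 a23
  have y0 : y 0 = x 0 * x 0 := smul_right_injective B h2 (by
    show (2 : k) • _ = (2 : k) • _
    linear_combination (norm := module) -a00)
  have y1 : y 1 = x 1 * x 1 := smul_right_injective B h2 (by
    show (2 : k) • _ = (2 : k) • _
    linear_combination (norm := module) -a11)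
  have y1' : y 1 = x 2 * x 2 := smul_right_injective B h2 (by
    show (2 : k) • _ = (2 : k) • _
    linear_combination (norm := module) -a22)
  have y2 : y 2 = x 3 * x 3 := smul_right_injective B h2 (by
    show (2 : k) • _ = (2 : k) • _
    linear_combination (norm := module) -a33)
  have y3 : y 3 = x 2 * x 3 + x 3 * x 2 := by linear_combination (norm := module) -a23
  refine ⟨⟨?_, ?_, ?_, ?_, ?_, ?_⟩, funext fun l => ?_⟩
  · linear_combination (norm := module) a03
  · linear_combination (norm := module) a13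
  · linear_combination (norm := module) a01 - y2
  · linear_combination (norm := module) y1 - y1'
  · linear_combination (norm := module) a02 + (2 : k) • y1
  · linear_combination (norm := module) a12 + (2 * c) • y0 + (2 * (1 - c)) • y1
  · fin_cases l
    exacts [y0, y1, y2, y3]

theorem to_g (hi : i ^ 2 = -1) (h : Rels i c x) (r s : Fin 4) :
    lhs (mu i) x r s = rhs (MM c) (yy x) r s := by
  fin_cases r <;> fin_cases s <;>
    simp only [lhs, rhs, mu, MM, yy, Fin.sum_univ_four, Matrix.of_apply, Matrix.cons_val',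
      Matrix.cons_val_zero, Matrix.cons_val_one, Matrix.cons_val, Matrix.cons_val_fin_one, Fin.zero_eta,
      Fin.mk_one, Fin.reduceFinMk]
  · module
  · linear_combination (norm := module) h.r2
  · linear_combination (norm := module) h.r4
  · linear_combination (norm := module) h.r0
  · linear_combination (norm := module) -h.r2
  · module
  · linear_combination (norm := module) h.r5
  · linear_combination (norm := module) h.r1
  · linear_combination (norm := module) h.r4
  · linear_combination (norm := module) h.r5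
  · linear_combination (norm := module) (2 : k) • h.r3
  · module
  · linear_combination (norm := module) (-i) • h.r0 + hi • (x 3 * x 0)
  · linear_combination (norm := module) i • h.r1 + hi • (x 3 * x 1)
  · module
  · module

theorem normal_of (hg : Algebra.adjoin k (Set.range x) = ⊤) (I : TwoSidedIdeal B) (z : B)
    (h : ∀ r, ∃ s t : k, s * t = 1 ∧ z * x r - s • (x r * z) ∈ I) : NormalMod I z := by
  intro a
  induction a using gen_ind hg with
  | h1 r =>
    exact ⟨⟨algebraMap k B r, by simp [Algebra.commutes]⟩, algebraMap k B r, by simp [Algebra.commutes]⟩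
  | hx j =>
    obtain ⟨s, t, hst, h⟩ := h j
    refine ⟨⟨s • x j, by rwa [smul_mul_assoc]⟩, t • x j, ?_⟩
    have := I.mul_mem_left (algebraMap k B (-t)) _ h
    rw [← Algebra.smul_def] at this
    convert this using 1
    rw [mul_smul_comm]
    linear_combination (norm := module) (-hst) • (x j * z)
  | ha a a' h h' =>
    obtain ⟨⟨b, hb⟩, d, hd⟩ := h
    obtain ⟨⟨b', hb'⟩, d', hd'⟩ := h'
    refine ⟨⟨b + b', ?_⟩, d + d', ?_⟩
    · convert I.add_mem hb hb' using 1; noncomm_ring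
    · convert I.add_mem hd hd' using 1; noncomm_ring
  | hm a a' h h' =>
    obtain ⟨⟨b, hb⟩, d, hd⟩ := h
    obtain ⟨⟨b', hb'⟩, d', hd'⟩ := h'
    refine ⟨⟨b * b', ?_⟩, d * d', ?_⟩
    · convert I.add_mem (I.mul_mem_right _ a' hb) (I.mul_mem_left b _ hb') using 1; noncomm_ring
    · convert I.add_mem (I.mul_mem_left a _ hd') (I.mul_mem_right _ d' hd) using 1; noncomm_ring

theorem normalizing (h : Pres i c x) (hi : i ^ 2 = -1) : Normalizing (yy x) := by
  have hr := h.rel
  have zero : ∀ (I : TwoSidedIdeal B) (a : B), a = 0 → a ∈ I := fun I a ha => ha ▸ I.zero_mem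
  have sm : ∀ (I : TwoSidedIdeal B) (t : k) (a : B), a ∈ I → t • a ∈ I := fun I t a ha => by
    rw [Algebra.smul_def]; exact I.mul_mem_left _ _ ha
  have u : ∀ (I : TwoSidedIdeal B) (l : Fin 3), l ≠ 2 → NormalMod I (uu x l) := fun I l hl =>
    normal_of h.gen I _ fun r => by
      fin_cases r
      · exact ⟨1, 1, one_mul _, zero _ _ (by rw [one_smul]; exact sub_eq_zero.2 (c0 hr hi l).eq.symm)⟩
      · exact ⟨1, 1, one_mul _, zero _ _ (by rw [one_smul]; exact sub_eq_zero.2 (c1 hr hi l).eq.symm)⟩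
      · exact ⟨1, 1, one_mul _, zero _ _ (by rw [one_smul]; exact sub_eq_zero.2 (c2 hr hi l).eq.symm)⟩
      · refine ⟨-1, -1, by ring, zero _ _ ?_⟩
        show uu x l * x 3 - (-1 : k) • (x 3 * uu x l) = 0
        rw [c3 hr hi]
        fin_cases l <;> simp at hl ⊢
  have e30 := x30 hr hi
  have e31 := x31 hr hi
  have l30 := x3l0 hr hi
  have l31 := x3l1 hr hi
  have e20 : x 2 * x 0 = (2 : k) • (x 1 * x 1) - x 0 * x 2 := x20 hr hi
  have e21 : x 2 * x 1 = (2 * c) • (x 0 * x 0) + (2 * (1 - c)) • (x 1 * x 1) - x 1 * x 2 := x21 hr hi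
  have e22 : x 2 * x 2 = x 1 * x 1 := x22 hr hi
  have l20 : ∀ a, x 2 * (x 0 * a) = (2 : k) • (x 1 * x 1 * a) - x 0 * (x 2 * a) := fun a => by
    rw [← mul_assoc, e20, sub_mul, smul_mul_assoc, mul_assoc (x 0)]
  have l21 : ∀ a, x 2 * (x 1 * a) = (2 * c) • (x 0 * x 0 * a) + (2 * (1 - c)) • (x 1 * x 1 * a) -
      x 1 * (x 2 * a) := fun a => by
    rw [← mul_assoc, e21, sub_mul, add_mul, smul_mul_assoc, smul_mul_assoc, mul_assoc (x 1) (x 2)]
  refine ⟨fun j => ?_, fun ht => ?_⟩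
  · fin_cases j
    · exact u _ 0 (by decide)
    · exact u _ 1 (by decide)
    · set I := TwoSidedIdeal.span (yy x '' {l | l < (2 : Fin 4)})
      have m0 : x 0 * x 0 ∈ I := TwoSidedIdeal.subset_span ⟨0, by decide, rfl⟩
      have m1 : x 1 * x 1 ∈ I := TwoSidedIdeal.subset_span ⟨1, by decide, rfl⟩
      refine normal_of h.gen I (x 3 * x 3) fun r => ?_
      fin_cases r
      · refine ⟨-1, -1, by ring, zero _ _ ?_⟩
        show x 3 * x 3 * x 0 - (-1 : k) • (x 0 * (x 3 * x 3)) = 0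
        rw [mul_assoc, e30, mul_smul_comm, l30]
        linear_combination (norm := module) hi • (x 0 * (x 3 * x 3))
      · refine ⟨-1, -1, by ring, zero _ _ ?_⟩
        show x 3 * x 3 * x 1 - (-1 : k) • (x 1 * (x 3 * x 3)) = 0
        rw [mul_assoc, e31, mul_smul_comm, l31]
        linear_combination (norm := module) hi • (x 1 * (x 3 * x 3))
      · refine ⟨1, 1, one_mul _, ?_⟩
        show x 3 * x 3 * x 2 - (1 : k) • (x 2 * (x 3 * x 3)) ∈ I
        have := I.add_mem (I.add_mem (I.add_mem (I.add_mem (I.add_mem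
          (sm I (-(2 * c)) _ (I.mul_mem_right _ (x 0) m0))
          (sm I (-(2 * (1 - c))) _ (I.mul_mem_right _ (x 0) m1)))
          (sm I 2 _ (I.mul_mem_left (x 1) _ m1))) (sm I 2 _ (I.mul_mem_right _ (x 1) m1)))
          (sm I (-(2 * c)) _ (I.mul_mem_left (x 0) _ m0)))
          (sm I (-(2 * (1 - c))) _ (I.mul_mem_left (x 0) _ m1))
        convert this using 1
        rw [x33 hr hi]
        simp only [mul_sub, sub_mul, mul_add, l20, l21, e20, e21, mul_smul_comm, mul_assoc]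
        module
      · exact ⟨1, 1, one_mul _, zero _ _ (by simp [mul_assoc])⟩
    · set I := TwoSidedIdeal.span (yy x '' {l | l < (3 : Fin 4)})
      have m0 : x 0 * x 0 ∈ I := TwoSidedIdeal.subset_span ⟨0, by decide, rfl⟩
      have m1 : x 1 * x 1 ∈ I := TwoSidedIdeal.subset_span ⟨1, by decide, rfl⟩
      have m3 : x 3 * x 3 ∈ I := TwoSidedIdeal.subset_span ⟨2, by decide, rfl⟩
      refine normal_of h.gen I (x 2 * x 3 + x 3 * x 2) fun r => ?_
      fin_cases r
      · refine ⟨-i, i, by linear_combination -hi, ?_⟩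
        show (x 2 * x 3 + x 3 * x 2) * x 0 - (-i) • (x 0 * (x 2 * x 3 + x 3 * x 2)) ∈ I
        convert I.add_mem (sm I (2 * i) _ (I.mul_mem_right _ (x 3) m1))
          (sm I 2 _ (I.mul_mem_left (x 3) _ m1)) using 1
        rw [add_mul, mul_assoc, mul_assoc, e30, e20, mul_smul_comm, l20, mul_sub, l30, mul_smul_comm,
          mul_add]
        module
      · refine ⟨i, -i, by linear_combination -hi, ?_⟩
        show (x 2 * x 3 + x 3 * x 2) * x 1 - i • (x 1 * (x 2 * x 3 + x 3 * x 2)) ∈ I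
        convert I.add_mem (I.add_mem (I.add_mem (sm I (-i * (2 * c)) _ (I.mul_mem_right _ (x 3) m0))
          (sm I (-i * (2 * (1 - c))) _ (I.mul_mem_right _ (x 3) m1)))
          (sm I (2 * c) _ (I.mul_mem_left (x 3) _ m0)))
          (sm I (2 * (1 - c)) _ (I.mul_mem_left (x 3) _ m1)) using 1
        rw [add_mul, mul_assoc, mul_assoc, e31, e21, mul_smul_comm, l21, mul_sub (x 3), l31 (x 2),
          mul_add (x 3), mul_smul_comm, mul_smul_comm, mul_add (x 1)]
        module
      · refine ⟨1, 1, one_mul _, ?_⟩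
        show (x 2 * x 3 + x 3 * x 2) * x 2 - (1 : k) • (x 2 * (x 2 * x 3 + x 3 * x 2)) ∈ I
        rw [← e22] at m1
        convert I.sub_mem (I.mul_mem_left (x 3) _ m1) (I.mul_mem_right _ (x 3) m1) using 1
        rw [one_smul]; noncomm_ring
      · refine ⟨1, 1, one_mul _, ?_⟩
        show (x 2 * x 3 + x 3 * x 2) * x 3 - (1 : k) • (x 3 * (x 2 * x 3 + x 3 * x 2)) ∈ I
        convert I.sub_mem (I.mul_mem_left (x 2) _ m3) (I.mul_mem_right _ (x 2) m3) using 1
        rw [one_smul]; noncomm_ring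
  · obtain ⟨ε, hε, -⟩ := exists_aug h
    have : TwoSidedIdeal.span (Set.range (yy x)) ≤ TwoSidedIdeal.ker ε :=
      TwoSidedIdeal.span_le.2 (by
        rintro _ ⟨l, rfl⟩
        show yy x l ∈ TwoSidedIdeal.ker ε
        rw [TwoSidedIdeal.mem_ker]
        fin_cases l <;> simp [yy, hε])
    have h1 : (1 : B) ∈ TwoSidedIdeal.ker ε := this (ht ▸ TwoSidedIdeal.mem_top _)
    simp [TwoSidedIdeal.mem_ker] at h1

theorem yy_mem (l : Fin 4) : yy x l ∈ VV k x ^ 2 := by
  have m : ∀ r s, x r * x s ∈ VV k x ^ 2 := fun r s => by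
    rw [sq]
    exact Submodule.mul_mem_mul (Submodule.subset_span ⟨r, rfl⟩) (Submodule.subset_span ⟨s, rfl⟩)
  fin_cases l
  exacts [m 0 0, m 1 1, m 3 3, add_mem (m 2 3) (m 3 2)]

theorem map_lr {C : Type} [Ring C] [Algebra k C] (φ : B →ₐ[k] C) (μ : Matrix (Fin 4) (Fin 4) k)
    (M : Fin 4 → Matrix (Fin 4) (Fin 4) k) (r s : Fin 4) :
    φ (lhs μ x r s) = lhs μ (fun j => φ (x j)) r s ∧ φ (rhs M y r s) = rhs M (fun j => φ (y j)) r s := by
  simp [lhs, rhs]

end gen

theorem rel (i c : k) (r s : Fin 4) : lhs (mu i) (fun j => gen (mu i) (MM c) (Sum.inl j)) r s =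
    rhs (MM c) (fun j => gen (mu i) (MM c) (Sum.inr j)) r s := by
  have := RingQuot.mkAlgHom_rel k (s := GRel (mu i) (MM c)) ⟨r, s, rfl, rfl⟩
  rwa [(map_lr (y := 0) _ _ (MM c) r s).1, (map_lr (x := 0) _ (mu i) _ r s).2] at this

theorem pres (h2 : (2 : k) ≠ 0) {i : k} (hi : i ^ 2 = -1) (c : k) :
    Pres i c fun j => gen (mu i) (MM c) (Sum.inl j) := by
  obtain ⟨h, hy⟩ := of_g h2 (rel i c)
  refine ⟨h, ?_, fun B _ _ y hy => ?_⟩
  · have := congrArg (Subalgebra.map (RingQuot.mkAlgHom k (GRel (mu i) (MM c))))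
      (FreeAlgebra.adjoin_range_ι k (Fin 4 ⊕ Fin 4))
    rw [AlgHom.map_adjoin, ← Set.range_comp, Algebra.map_top,
      (AlgHom.range_eq_top _).2 (RingQuot.mkAlgHom_surjective k _)] at this
    rw [eq_top_iff, ← this, Algebra.adjoin_le_iff]
    have m : ∀ j, gen (mu i) (MM c) (Sum.inl j) ∈ Algebra.adjoin k
        (Set.range fun j => gen (mu i) (MM c) (Sum.inl j)) := fun j => Algebra.subset_adjoin ⟨j, rfl⟩
    rintro _ ⟨j | l, rfl⟩
    · exact m j
    · show gen (mu i) (MM c) (Sum.inr l) ∈ _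
      rw [congrFun hy l]
      fin_cases l
      exacts [mul_mem (m 0) (m 0), mul_mem (m 1) (m 1), mul_mem (m 3) (m 3),
        add_mem (mul_mem (m 2) (m 3)) (mul_mem (m 3) (m 2))]
  · refine ⟨RingQuot.liftAlgHom k ⟨FreeAlgebra.lift k (Sum.elim y (yy y)), ?_⟩, fun j => ?_⟩
    · rintro _ _ ⟨r, s, rfl, rfl⟩
      rw [(map_lr (y := 0) _ _ (MM c) r s).1, (map_lr (x := 0) _ (mu i) _ r s).2]
      simpa using to_g hi hy r s
    · simp [gen]

theorem map_quad {B C : Type} [Ring B] [Algebra k B] [Ring C] [Algebra k C] (φ : B →ₐ[k] C)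
    (y : Fin n → B) (r : Matrix (Fin n) (Fin n) k) : φ (quad y r) = quad (fun i => φ (y i)) r := by
  simp [quad]

def RR (i c : k) : Fin 6 → Matrix (Fin 4) (Fin 4) k :=
  ![!![0, 0, 0, 1; 0, 0, 0, 0; 0, 0, 0, 0; i, 0, 0, 0],
    !![0, 0, 0, 0; 0, 0, 0, 1; 0, 0, 0, 0; 0, -i, 0, 0],
    !![0, 1, 0, 0; -1, 0, 0, 0; 0, 0, 0, 0; 0, 0, 0, 1],
    !![0, 0, 0, 0; 0, -1, 0, 0; 0, 0, 1, 0; 0, 0, 0, 0],
    !![0, 0, 1, 0; 0, -2, 0, 0; 1, 0, 0, 0; 0, 0, 0, 0],
    !![-(2 * c), 0, 0, 0; 0, -(2 * (1 - c)), 1, 0; 0, 1, 0, 0; 0, 0, 0, 0]]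

theorem rels_iff {B : Type} [Ring B] [Algebra k B] (i c : k) (y : Fin 4 → B) :
    Rels i c y ↔ ∀ m, quad y (RR i c m) = 0 := by
  simp only [Fin.forall_fin_succ, IsEmpty.forall_iff, and_true, quad, RR, Fin.sum_univ_four,
    Matrix.of_apply, Matrix.cons_val', Matrix.cons_val_zero, Matrix.cons_val_one, Matrix.cons_val,
    Matrix.cons_val_fin_one, Matrix.cons_val_succ]
  constructor
  · intro h
    refine ⟨?_, ?_, ?_, ?_, ?_, ?_⟩
    · linear_combination (norm := module) h.r0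
    · linear_combination (norm := module) h.r1
    · linear_combination (norm := module) h.r2
    · linear_combination (norm := module) h.r3
    · linear_combination (norm := module) h.r4
    · linear_combination (norm := module) h.r5
  · rintro ⟨h0, h1, h2, h3, h4, h5⟩
    constructor
    · linear_combination (norm := module) h0
    · linear_combination (norm := module) h1
    · linear_combination (norm := module) h2
    · linear_combination (norm := module) h3
    · linear_combination (norm := module) h4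
    · linear_combination (norm := module) h5

theorem qpres (i c : k) : Pres i c (qgen (Set.range (RR i c))) := by
  refine ⟨(rels_iff i c _).2 fun m => ?_, ?_, fun B _ _ y hy => ?_⟩
  · have := RingQuot.mkAlgHom_rel k (s := QRel (Set.range (RR i c))) ⟨rfl, _, ⟨m, rfl⟩, rfl⟩
    rwa [map_quad, map_zero] at this
  · have := congrArg (Subalgebra.map (RingQuot.mkAlgHom k (QRel (Set.range (RR i c)))))
      (FreeAlgebra.adjoin_range_ι k (Fin 4))
    rwa [AlgHom.map_adjoin, ← Set.range_comp, Algebra.map_top,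
      (AlgHom.range_eq_top _).2 (RingQuot.mkAlgHom_surjective k _)] at this
  · refine ⟨RingQuot.liftAlgHom k ⟨FreeAlgebra.lift k y, ?_⟩, fun j => ?_⟩
    · rintro _ _ ⟨rfl, _, ⟨m, rfl⟩, rfl⟩
      rw [map_quad, map_zero]
      simpa using (rels_iff i c y).1 hy m
    · simp [qgen]

theorem quadratic (h2 : (2 : k) ≠ 0) {i : k} (hi : i ^ 2 = -1) (c : k) : Quadratic (mu i) (MM c) := by
  have hp := pres h2 hi c
  have hq := qpres i c
  obtain ⟨φ, hφ⟩ := hq.3 _ _ hp.1
  obtain ⟨ψ, hψ⟩ := hp.3 _ _ hq.1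
  refine ⟨Set.range (RR i c), AlgEquiv.ofAlgHom φ ψ ?_ ?_, fun j => hφ j⟩
  · refine AlgHom.ext_of_adjoin_eq_top hp.2 ?_
    rintro _ ⟨j, rfl⟩
    show φ (ψ _) = _
    rw [hψ j, hφ j]
    rfl
  · refine AlgHom.ext_of_adjoin_eq_top hq.2 ?_
    rintro _ ⟨j, rfl⟩
    show ψ (φ _) = _
    rw [hφ j, hψ j]
    rfl

theorem result (k : Type) [Field k] [IsAlgClosed k] (hk : ringChar k ≠ 2) :
    ∃ (μ : Matrix (Fin 4) (Fin 4) k) (M : Fin 4 → Matrix (Fin 4) (Fin 4) k), Data μ M ∧
      (∃ z : Fin 4 → GA μ M, Normalizing z ∧ Spans z (spanY μ M)) ∧ InSq (spanY μ M) (spanX μ M) ∧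
      Quadratic μ M ∧ ASRegular k (GA μ M) (spanX μ M) 4 ∧ NumPt (spanX μ M) 19 := by
  have h2 : (2 : k) ≠ 0 := Ring.two_ne_zero hk
  obtain ⟨i, hi⟩ := IsAlgClosed.exists_pow_nat_eq (-1 : k) two_pos
  obtain ⟨c, hc, hc4, hc2, hd⟩ := exists_c h2
  have hp := pres h2 hi c
  have hy := (of_g h2 (rel i c)).2
  refine ⟨mu i, MM c, ⟨fun r s => ?_, fun r => ?_, fun l r s => ?_⟩,
    ⟨_, normalizing hp hi, by rw [← hy]; rfl⟩, ?_, quadratic h2 hi c,
    asReg hp hi (mul_inv_cancel₀ (mul_ne_zero h2 hc)),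
    nineteen hp h2 hi hc hc4 hc2 hd⟩
  · fin_cases r <;> fin_cases s <;> simp [mu] <;> linear_combination -hi
  · fin_cases r <;> simp [mu]
  · fin_cases l <;> fin_cases r <;> fin_cases s <;> simp [mu, MM]
  · rw [InSq, spanY, hy, Submodule.span_le]
    rintro _ ⟨l, rfl⟩
    exact yy_mem l

end Pool.Agent.Results.MP_a6a2ff_al.Gsca19
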